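import Pool.Agent.H83.OCG.Time2
import Pool.Agent.H54.KVA.Defs2
import Pool.Agent.H42.PB.Ext
import Pool.Agent.H58.KMF.LKG
import Pool.Agent.H70.PC.NestT

/-!
# Plan C: definitions

Families of lines in dimension `3` (`m = 2`) with a random time which may depend on the line and
has few dead windows. Everything is measured by the information `IL` between a label and the line.
All scales of a class are proportions of the resolution `J`. A level `q₁` is the velocity to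
precision `q₁`, as additional side information (`hc`).
-/

set_option autoImplicit false

namespace Pool.PCD

open Finset Real
open Pool.Agent.H49.Ent Pool.Agent.H32.Dense Pool.STK Pool.KA Pool.KSAT Pool.K2S Pool.PB Pool.PC

variable {m J : ℕ}

/-- The information between a label and the line, given the side information. -/
noncomputable def IL (F : Fam m J) {S : Type} (c : F.Ω → S) : ℝ :=
  CH F.p c F.Z - CH F.p c (fun ω => (F.l ω, F.Z ω))

/-- The dead windows `v` in `[a, b)`: the sum of the probabilities that two times, independent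
given the line, the side information and the window of length `2 ^ (-v)`, are at a distance less
than `2 ^ (-(v + K))`. -/
noncomputable def dd (F : Fam m J) (K a b : ℕ) : ℝ :=
  ∑ v ∈ (Ico a b).filter (fun v => v + K ≤ J),
    Pool.OCG.nr F.p (fun ω => (F.l ω, F.Z ω)) F.t K v

/-! ### Labels: planks -/

/-- Rounding at scale `2 ^ (-ρ)`. -/
noncomputable def rd (ρ : ℕ) (s : ℝ) : ℝ := (⌊(2 : ℝ) ^ ρ * s⌋ : ℝ) / 2 ^ ρ

/-- The rounded slope as a frame. -/
noncomputable def zs (i₀ : Fin 2) (ρ : ℕ) (s : ℝ) (i : Fin 2) : ℝ := if i = i₀ then 0 else rd ρ s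

/-- **The plank** at the window `w` with offset `q` and frame precision `ρ`, slope `s`: the window,
the slope to precision `ρ`, the position at the beginning of the window to precisions `q + w`
(coordinate `i₀`) and `q + ρ + w` (second coordinate of the frame; at most `J`), the velocity to
precisions `q` and `q + ρ`, and the side information. -/
noncomputable def plk (F : Fam 2 J) (i₀ : Fin 2) (w q ρ : ℕ) (s : F.Ω → ℝ) :=
  F.ctt w q ρ i₀ (fun ω => zs i₀ ρ (s ω))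

/-- The volume of the plank. -/
def vlk (J w q ρ : ℕ) : ℕ := min (q + w) J + min (q + ρ + w) J

/-- The plank with `X` further digits of the position at the beginning of the window and of the
velocity, in the frame of the plank. -/
noncomputable def plx (F : Fam 2 J) (i₀ : Fin 2) (w q ρ X : ℕ) (s : F.Ω → ℝ) :=
  F.mlb w (fun i => if i = i₀ then q + w + X else q + ρ + w + X) (qcv (q + X) ρ i₀)
    (fun ω => zfr i₀ (zs i₀ ρ (s ω)))

/-- **Closed slopes**: `s` is a function of the line, of the side information and of the window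
`w`; it agrees to precision `r` with the slope `e` of a line which contains the directions at the
exact point, to precision `n`. -/
structure CS (F : Fam 2 J) (i₀ i₁ : Fin 2) (w r n : ℕ) (s : F.Ω → ℝ) : Prop where
  det : Det F.p (slam F w) s
  bd : ∀ ω, |s ω| ≤ 3
  own : ∃ e t : (Fin 2 → ℤ) × (ℕ × F.ζ) → ℝ, ∀ ω, 0 < F.p ω → |e (Fam.pt F ω)| ≤ 2 ∧
    |F.d ω i₁ - e (Fam.pt F ω) * F.d ω i₀ - t (Fam.pt F ω)| ≤ 1 / 2 ^ n ∧
    |e (Fam.pt F ω) - s ω| ≤ 2 / 2 ^ r

/-- At the exact points the directions are within `2 ^ (-n)` of a line with slope at most `2` over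
the coordinate `i₀`. -/
def Str (F : Fam 2 J) (i₀ i₁ : Fin 2) (n : ℕ) : Prop :=
  ∃ e t : (Fin 2 → ℤ) × (ℕ × F.ζ) → ℝ, ∀ ω, 0 < F.p ω → |e (Fam.pt F ω)| ≤ 2 ∧
    |F.d ω i₁ - e (Fam.pt F ω) * F.d ω i₀ - t (Fam.pt F ω)| ≤ 1 / 2 ^ n

/-! ### Classes -/

/-- The statement `Φ` holds for the families of the class, restricted to their events. -/
def Bs (S : PCl 2) (Φ : ∀ J : ℕ, Fam 2 J → Prop) : Prop :=
  ∃ τ : ℝ, 0 < τ ∧ ∃ J₁ : ℕ, ∀ J ≥ J₁, ∀ (F : Fam 2 J) (A : F.Ω → Prop), S.St τ J F A →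
    ∀ h : IsLaw (Pool.Agent.H49.Ent.cond F.p A True), Φ J (F.res A True h)

/-- **The class**: nonempty, large events, few dead windows. `K` and `η` are fixed. -/
structure CK (S : PCl 2) (K : ℕ) (η : ℝ) : Prop where
  ne : S.Ne
  pe : ∀ (τ : ℝ) (J : ℕ) (F : Fam 2 J) (A : F.Ω → Prop), S.St τ J F A →
    Real.exp (-(τ * J)) ≤ Pe F.p A
  dd : ∀ h : ℝ, 0 < h → Bs S fun J F => dd F K 0 J ≤ (η + h) * J

/-- `a` is the rate function of the velocity at the exact points. -/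
structure Rt (S : PCl 2) (a : ℝ → ℝ) : Prop where
  zero : a 0 = 0
  lip : ∀ x y : ℝ, 0 ≤ x → x ≤ y → y ≤ 1 → a x ≤ a y ∧ a y ≤ a x + 2 * (y - x)
  rate : ∀ x : ℝ, 0 ≤ x → x ≤ 1 → ∀ h : ℝ, 0 < h → Bs S fun J F =>
    |CH F.p (F.D ⌊x * J⌋₊) (Fam.pt F) - a x * Real.log 2 * J| ≤ h * J

/-- **The level** `q₁`: the velocity to precision `q₁ J` as additional side information. -/
noncomputable def hc (q₁ : ℝ) (F : Fam 2 J) : Fam 2 J := F.cnd (F.D ⌊q₁ * J⌋₊)

/-- **The slopes of one family** (`F` is a family `hc q₁ F'`): own slopes `e` at the exact points,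
closed at the windows `w` of `W` to precision `rot w`, and to no better precision on any large
event. `h'` is the error of the first part, `h` and `ψ` belong to the second part. -/
structure Dn (F : Fam 2 J) (i₀ i₁ : Fin 2) (q₁ n : ℝ) (rot : ℚ → ℝ) (W : Finset ℚ)
    (h ψ h' : ℝ) (e t : (Fin 2 → ℤ) × (ℕ × F.ζ) → ℝ) : Prop where
  str : ∀ ω, 0 < F.p ω → |e (Fam.pt F ω)| ≤ 2 ∧
    |F.d ω i₁ - e (Fam.pt F ω) * F.d ω i₀ - t (Fam.pt F ω)| ≤ 1 / 2 ^ ⌊(n - h') * J⌋₊
  cl : ∀ w ∈ W, ∃ s : F.Ω → ℝ, Det F.p (slam F ⌊w * J⌋₊) s ∧ (∀ ω, |s ω| ≤ 3) ∧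
    ∀ ω, 0 < F.p ω → |e (Fam.pt F ω) - s ω| ≤ 2 / 2 ^ ⌊(rot w - h') * J⌋₊
  th : ∀ w ∈ W, q₁ + rot w + h < n → ∀ B : F.Ω → Prop, Real.exp (-(ψ * J)) ≤ Pe F.p B →
    ∀ s : F.Ω → ℝ, Det F.p (slam F ⌊w * J⌋₊) s →
      ∃ ω, B ω ∧ 0 < F.p ω ∧ 2 / 2 ^ ⌊(rot w + h) * J⌋₊ < |e (Fam.pt F ω) - s ω|

/-- **A level with its numbers.** `a` is the rate function, its slope after `q₁` is at least `δ` on
average; `n` is the straightness of the fans `hc q₁`, in the chart `i₀` (and not more in the other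
chart); `rot w` is the precision to which the own slopes are constant on the windows `w`. -/
structure Lvl (S : PCl 2) (K : ℕ) (η δ q₁ n : ℝ) (i₀ i₁ : Fin 2) (a : ℝ → ℝ) (rot : ℚ → ℝ) :
    Prop where
  cg : CK S K η
  rt : Rt S a
  i01 : i₀ ≠ i₁
  q0 : 0 ≤ q₁
  q1 : q₁ < 1
  qn : q₁ ≤ n
  n1 : n ≤ 1
  act : ∀ x : ℝ, q₁ ≤ x → x ≤ 1 → a q₁ + δ * (x - q₁) ≤ a x
  up : ∀ i j : Fin 2, i ≠ j → ∀ h : ℝ, 0 < h → n + h ≤ 1 →
    Bs S fun J F => ¬ Str (hc q₁ F) i j ⌊(n + h) * J⌋₊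
  rot0 : ∀ w : ℚ, 0 ≤ rot w
  rotn : ∀ w : ℚ, q₁ + rot w ≤ n
  rotm : Monotone rot
  dec : ∀ W : Finset ℚ, (∀ w ∈ W, 0 ≤ w ∧ w ≤ 1) → ∀ h : ℝ, 0 < h → ∃ ψ : ℝ, 0 < ψ ∧
    ∀ h' : ℝ, 0 < h' → Bs S fun _ F => ∃ e t : (Fin 2 → ℤ) × (ℕ × (hc q₁ F).ζ) → ℝ,
      Dn (hc q₁ F) i₀ i₁ q₁ n rot W h ψ h' e t

/-- The fans at the exact points are spread: rate at least `δ` from the top, and they do not lie
near lines on any large event. -/
structure Ex2 (S : PCl 2) (δ : ℝ) : Prop where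
  rate : ∀ x : ℝ, 0 ≤ x → x ≤ 1 → ∀ h : ℝ, 0 < h → Bs S fun J F =>
    (δ * x * Real.log 2 - h) * J ≤ CH F.p (F.D ⌊x * J⌋₊) (Fam.pt F)
  spr : ∀ i j : Fin 2, i ≠ j → ∀ h : ℝ, 0 < h → h ≤ 1 → Bs S fun J F => ¬ Str F i j ⌊h * J⌋₊

/-- The frame precision of the planks with `q` digits of the velocity, at a window where the slopes
are constant to precision `r`: slack `h`, and `q + ρ ≤ n J`. -/
noncomputable def pr (n r h : ℝ) (J q : ℕ) : ℕ := ⌊min (r * J) (n * J - q) - h * J⌋₊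

end Pool.PCD
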