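import Pool.Agent.H93.PC.Defs

/-!
# Plan C: statements of the modules
-/

set_option autoImplicit false

namespace Pool.PCD

open Finset Real
open Pool.Agent.H49.Ent Pool.Agent.H32.Dense Pool.STK Pool.KA Pool.KSAT Pool.K2S Pool.PB Pool.PC

variable {m J : ℕ}

/-! ### General facts, for one family -/

/-- **(VIS)** Planks are visible from the exact point and the velocity to precision `q`. -/
def VisStmt : Prop :=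
  ∃ C : ℝ, 0 ≤ C ∧ ∀ (J : ℕ) (F : Fam 2 J) (i₀ i₁ : Fin 2) (w q ρ r n : ℕ) (s : F.Ω → ℝ),
    i₀ ≠ i₁ → w ≤ J → CS F i₀ i₁ w r n s → ρ ≤ r → (ρ = 0 ∨ q + ρ ≤ n) →
    IL F (plk F i₀ w q ρ s) ≤ IL F (Fam.pt F) + CH F.p (F.D q) (Fam.pt F) + C

/-- **(NES)** Planks with the same slope are nested, up to missing digits (natural subtraction). -/
def NesStmt : Prop :=
  ∃ C : ℝ, 0 ≤ C ∧ ∀ (J : ℕ) (F : Fam 2 J) (i₀ : Fin 2) (w w' q q' ρ ρ' : ℕ) (s : F.Ω → ℝ),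
    w ≤ w' → w' ≤ J → (∀ ω, |s ω| ≤ 3) → CH F.p (plk F i₀ w q ρ s) (plk F i₀ w' q' ρ' s) ≤
      3 * (((q - q') + (q + ρ - (q' + ρ')) + (ρ - ρ') : ℕ) : ℝ) * Real.log 2 + C

/-- **(CND)** Side information which is a function of the line. -/
def CndStmt : Prop :=
  ∀ (m J : ℕ) (F : Fam m J) (κ : Type) (z : F.Ω → κ), Det F.p F.l z →
    (∀ (S : Type) (c : F.Ω → S), IL F (fun ω => (c ω, z ω)) = CH F.p z F.Z + IL (F.cnd z) c) ∧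
    CH F.p z F.Z + IL (F.cnd z) (Fam.pt (F.cnd z)) ≤ IL F (Fam.pt F) + CH F.p z (Fam.pt F)

/-- **(START)** A plank gives a label. -/
def StartStmt : Prop :=
  ∃ C : ℝ, 0 ≤ C ∧ ∀ (J : ℕ) (F : Fam 2 J) (i₀ : Fin 2) (w q ρ : ℕ) (s : F.Ω → ℝ),
    w ≤ J → Det F.p (slam F w) s → (∀ ω, |s ω| ≤ 3) →
    ∃ B : Pool.LK.Lbl F 4, B.cost ≤ IL F (plk F i₀ w q ρ s) +
      (2 * J - vlk J w q ρ + 3 * w) * Real.log 2 + C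

/-! ### Classes -/

/-- **(UMX)** If the information of the positions is not at least `c'` on the events of the class,
then there is a subclass where it is at most `c`. -/
def UmxStmt : Prop :=
  ∀ (K : ℕ) (η : ℝ) (S : PCl 2) (c c' : ℝ), CK S K η → c' < c →
    ¬ Bs S (fun J F => c' * J ≤ IL F (Fam.pt F)) → ∃ S' : PCl 2, S'.Le S ∧ S'.Ne ∧
      Bs S' (fun J F => IL F (Fam.pt F) ≤ c * J)

/-- **(CLS)** The class of the counterexamples. -/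
def ClsStmt : Prop :=
  ¬ Pool.KMF.LKG 2 4 → ∃ ε : ℝ, 0 < ε ∧ ∀ η : ℝ, 0 < η → ∃ (K : ℕ) (S : PCl 2), CK S K η ∧
    Bs S fun J F => ∀ B : Pool.LK.Lbl F 4, IL F (Fam.pt F) + ε * J ≤ B.cost

/-- **(NUM)** The rate function. -/
def NumStmt : Prop :=
  ∀ (K : ℕ) (η : ℝ) (S : PCl 2), CK S K η → ∃ S' : PCl 2, S'.Le S ∧ S'.Ne ∧ ∃ a, Rt S' a

/-- **(DEC)** The slopes of countably many levels. -/
def DecStmt : Prop :=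
  ∀ (K : ℕ) (η δ : ℝ) (S : PCl 2) (a : ℝ → ℝ) (q : ℕ → ℝ), 0 < δ → CK S K η → Rt S a →
    (∀ k, 0 ≤ q k ∧ q k < 1 ∧ ∀ x : ℝ, q k ≤ x → x ≤ 1 → a (q k) + δ * (x - q k) ≤ a x) →
    ∃ S' : PCl 2, S'.Le S ∧ S'.Ne ∧ ∀ k, ∃ (n : ℝ) (i₀ i₁ : Fin 2) (rot : ℚ → ℝ),
      Lvl S' K η δ (q k) n i₀ i₁ a rot

/-- **(BOX)** The first level: `q₁` maximizes `δ x - a x`. -/
def BoxStmt : Prop :=
  ∀ (δ η : ℝ) (K : ℕ) (S : PCl 2), 0 < δ → CK S K η → ∃ S' : PCl 2, S'.Le S ∧ S'.Ne ∧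
    ∃ a, Rt S' a ∧ ∃ q₁ : ℝ, 0 ≤ q₁ ∧ q₁ ≤ 1 ∧ a q₁ ≤ δ * q₁ ∧
      (q₁ = 1 ∨ ∃ (n : ℝ) (i₀ i₁ : Fin 2) (rot : ℚ → ℝ), Lvl S' K η δ q₁ n i₀ i₁ a rot)

/-- **(LEV)** The levels of a class with spread fans: `n k` is less than the next level. -/
def LevStmt : Prop :=
  ∀ (δ η : ℝ) (K M : ℕ) (S : PCl 2) (x₀ : ℝ), 0 < δ → 0 < x₀ → CK S K η → Ex2 S δ →
    ∃ S' : PCl 2, S'.Le S ∧ S'.Ne ∧ ∃ (a : ℝ → ℝ) (q n : ℕ → ℝ) (i₀ i₁ : ℕ → Fin 2)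
      (rot : ℕ → ℚ → ℝ), (∀ k, k < M → 0 < q k) ∧ (∀ k, k < M → n k < x₀) ∧
      (∀ k l, k < l → l < M → n k < q l) ∧
      ∀ k, k < M → Lvl S' K η (δ / 2) (q k) (n k) (i₀ k) (i₁ k) a (rot k)

/-! ### The turning zone -/

/-- **(ALPHA)** The turning zone (`q₁ + rot w₂ < n`): the information grows at least like the
volume, up to the window `w'` slightly after `w₂` (where the slopes may be closed). -/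
def AlphaStmt : Prop :=
  ∀ ε δ : ℝ, 0 < ε → 0 < δ → ∃ η₀ : ℝ, 0 < η₀ ∧
    ∀ (K : ℕ) (S : PCl 2) (η q₁ n : ℝ) (i₀ i₁ : Fin 2) (a : ℝ → ℝ) (rot : ℚ → ℝ),
      η ≤ η₀ → Lvl S K η δ q₁ n i₀ i₁ a rot → ∀ w w₂ w' : ℚ, 0 < w → w < w₂ → w₂ < w' →
      (w' : ℝ) ≤ w₂ + ε / 10 → w' + q₁ < 1 → q₁ + rot w₂ < n →
      ∃ h₀ : ℝ, 0 < h₀ ∧ ∀ h : ℝ, 0 < h → h ≤ h₀ → Bs S fun J F =>
        ∃ q : ℕ, q₁ * J ≤ q ∧ (q : ℝ) ≤ (q₁ + ε) * J ∧ ∃ s s' : (hc q₁ F).Ω → ℝ,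
          CS (hc q₁ F) i₀ i₁ ⌊w * J⌋₊ ⌊(rot w - h) * J⌋₊ ⌊(n - h) * J⌋₊ s ∧
          CS (hc q₁ F) i₀ i₁ ⌊w' * J⌋₊ ⌊(rot w' - h) * J⌋₊ ⌊(n - h) * J⌋₊ s' ∧
          ((vlk J ⌊w' * J⌋₊ q (pr n (rot w') h J q) : ℝ) -
            vlk J ⌊w * J⌋₊ q (pr n (rot w) h J q)) * Real.log 2 - ε * J ≤
          IL (hc q₁ F) (plk (hc q₁ F) i₀ ⌊w' * J⌋₊ q (pr n (rot w') h J q) s') -
            IL (hc q₁ F) (plk (hc q₁ F) i₀ ⌊w * J⌋₊ q (pr n (rot w) h J q) s)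

/-! ### The closed zone -/

/-- **(BETA)** Closed boxes (`n ≤ q₁ + rot w`): both rows of `X J` digits are full, if the next
digits of the time do not know the block of the line, if the first `g J` digits of the velocity in
the box are independent of the rows, and if there are few dead windows. -/
def BetaStmt : Prop :=
  ∀ ε δ : ℝ, 0 < ε → 0 < δ → ∃ εT : ℝ, 0 < εT ∧ ∀ K : ℕ, ∃ ι : ℝ, 0 < ι ∧
    ∀ (S : PCl 2) (η q₁ n : ℝ) (i₀ i₁ : Fin 2) (a : ℝ → ℝ) (rot : ℚ → ℝ),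
      Lvl S K η δ q₁ n i₀ i₁ a rot → ∀ w X : ℚ, 0 < w → 0 < X → w + X + n < 1 →
      n ≤ q₁ + rot w → ∀ g : ℝ, 0 < g → g ≤ ι * X → ∃ h₀ : ℝ, 0 < h₀ ∧ ∀ h : ℝ, 0 < h → h ≤ h₀ →
        Bs S fun J F => ∀ (q ρ w₀ w₁ x : ℕ) (s : (hc q₁ F).Ω → ℝ), q = ⌊q₁ * J⌋₊ →
          ρ = pr n (rot w) h J q → w₀ = ⌊w * J⌋₊ → w₁ = ⌊(w + X) * J⌋₊ → x = w₁ - w₀ →
          CS (hc q₁ F) i₀ i₁ w₀ ⌊(rot w - h) * J⌋₊ ⌊(n - h) * J⌋₊ s →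
          dd (hc q₁ F) K w₀ w₁ ≤ εT * (X * J) →
          Pool.KVA.MI F.p (F.T1 w₁) (plx (hc q₁ F) i₀ w₀ q ρ x s) (plk (hc q₁ F) i₀ w₀ q ρ s) ≤
            ι * (X * J) →
          Pool.KVA.MI F.p ((hc q₁ F).mvl (qcv (q + ⌊g * J⌋₊) ρ i₀)
              (fun ω => zfr i₀ (zs i₀ ρ (s ω))))
            (plk (hc q₁ F) i₀ w₁ q ρ s)
            (fun ω => (F.T1 w₁ ω, plk (hc q₁ F) i₀ w₀ q ρ s ω)) ≤ ι * (X * J) →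
          (2 - ε) * (X * J) * Real.log 2 ≤
            IL (hc q₁ F) (plk (hc q₁ F) i₀ w₁ q ρ s) - IL (hc q₁ F) (plk (hc q₁ F) i₀ w₀ q ρ s)

/-- **(TOP)** The rows of the coordinate `i₀` are full, for a good offset `q`; constant slopes. -/
def TopStmt : Prop :=
  ∀ ε δ : ℝ, 0 < ε → 0 < δ → ∃ η₀ : ℝ, 0 < η₀ ∧
    ∀ (K : ℕ) (S : PCl 2) (η q₁ n : ℝ) (i₀ i₁ : Fin 2) (a : ℝ → ℝ) (rot : ℚ → ℝ),
      η ≤ η₀ → Lvl S K η δ q₁ n i₀ i₁ a rot → ∀ w w' : ℚ, 0 < w → w < w' → w' + q₁ < 1 →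
      ∃ h₀ : ℝ, 0 < h₀ ∧ ∀ h : ℝ, 0 < h → h ≤ h₀ → Bs S fun J F =>
        ∀ s : (hc q₁ F).Ω → ℝ,
          CS (hc q₁ F) i₀ i₁ ⌊w * J⌋₊ ⌊(rot w - h) * J⌋₊ ⌊(n - h) * J⌋₊ s →
          ∃ q : ℕ, q₁ * J ≤ q ∧ (q : ℝ) ≤ (q₁ + ε) * J ∧
            ((w' - w) * Real.log 2 - ε) * J ≤
            IL (hc q₁ F) (plk (hc q₁ F) i₀ ⌊w' * J⌋₊ q (pr n (rot w) h J q) s) -
              IL (hc q₁ F) (plk (hc q₁ F) i₀ ⌊w * J⌋₊ q (pr n (rot w) h J q) s)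

/-! ### Exact families -/

/-- **(E)** The positions of families with spread fans are full. -/
def EStmt : Prop :=
  ∀ ε δ : ℝ, 0 < ε → 0 < δ → ∃ η₀ : ℝ, 0 < η₀ ∧ ∀ (η : ℝ) (K : ℕ) (S : PCl 2), η ≤ η₀ →
    CK S K η → Ex2 S δ → Bs S fun J F => (2 * Real.log 2 - ε) * J ≤ IL F (Fam.pt F)

/-- **(END)** From a closed window: the remaining rows are full. -/
def EndStmt : Prop :=
  ∀ ε δ : ℝ, 0 < ε → 0 < δ → ∃ η₀ : ℝ, 0 < η₀ ∧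
    ∀ (K : ℕ) (S : PCl 2) (η q₁ n : ℝ) (i₀ i₁ : Fin 2) (a : ℝ → ℝ) (rot : ℚ → ℝ),
      η ≤ η₀ → Lvl S K η δ q₁ n i₀ i₁ a rot → ∀ w : ℚ, 0 < w → w + q₁ < 1 →
      n ≤ q₁ + rot w → ∃ h₀ : ℝ, 0 < h₀ ∧ ∀ h : ℝ, 0 < h → h ≤ h₀ → Bs S fun J F =>
        ∀ (q ρ : ℕ) (s : (hc q₁ F).Ω → ℝ), ⌊q₁ * J⌋₊ ≤ q → (q : ℝ) ≤ (q₁ + ε / 10) * J →
          ρ = pr n (rot w) h J q →
          CS (hc q₁ F) i₀ i₁ ⌊w * J⌋₊ ⌊(rot w - h) * J⌋₊ ⌊(n - h) * J⌋₊ s →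
          IL (hc q₁ F) (plk (hc q₁ F) i₀ ⌊w * J⌋₊ q ρ s) +
            (2 * J - vlk J ⌊w * J⌋₊ q ρ) * Real.log 2 - ε * J ≤
            IL (hc q₁ F) (Fam.pt (hc q₁ F))

/-! ### The joints -/

/-- **(JBOX)** -/
def JBoxStmt : Prop := NumStmt → DecStmt → BoxStmt

/-- **(JLEV)** -/
def JLevStmt : Prop := NumStmt → DecStmt → LevStmt

/-- **(EAS)** The choice of the level. -/
def EasStmt : Prop := LevStmt → AlphaStmt → BetaStmt → VisStmt → NesStmt → CndStmt → UmxStmt →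
  EStmt

/-- **(ZOOM)** The zoom at a closed window. -/
def ZoomStmt : Prop := EStmt → TopStmt → VisStmt → NesStmt → EndStmt

/-- **(INT)** -/
def IntStmt : Prop := ClsStmt → BoxStmt → VisStmt → NesStmt → CndStmt → StartStmt → AlphaStmt →
  EndStmt → Pool.KMF.LKG 2 4

end Pool.PCD
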